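import Mathlib
import Pool.Agent.Results.MP_f686a1_nt.AlmostAllManyShifts

/-! Prime counts in random windows with a growing number of points (helper794; from the theorem of helper402 on almost all
admissible sets). -/

set_option autoImplicit false

namespace Pool.Agent.Run7.h794.RW

open Finset
open scoped Classical
open Pool.Agent.Results.MP_f686a1_nt.AlmostAllManyShifts (Admissible hits)

/-- the number of primes among the points `n + s_i` -/
noncomputable def primesAt {m : ℕ} (s : Fin m → ℕ) (n : ℕ) : ℕ := (univ.filter fun i => (n + s i).Prime).card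

/-- the points `n + s_i` without prime factors `≤ z` -/
noncomputable def free {m : ℕ} (z : ℕ) (s : Fin m → ℕ) (n : ℕ) : Finset (Fin m) :=
  univ.filter fun i => ∀ p : ℕ, p.Prime → p ≤ z → ¬ p ∣ n + s i

/-- the largest number of primes in the windows with `m < n ≤ H` -/
noncomputable def rho {m : ℕ} (s : Fin m → ℕ) (H : ℕ) : ℕ := (Ioc m H).sup (primesAt s)

/-- all the points of every sieved window are simultaneously prime many times -/
def Good {m : ℕ} (s : Fin m → ℕ) (H : ℕ) (Y : ℝ) : Prop :=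
  ∀ a : ℕ, Y ≤ ((Icc 1 H).filter (fun n : ℕ => ∀ i ∈ free m s a, (n + s i).Prime)).card

/-- the bad sets of `k` shifts -/
noncomputable def bad (H k : ℕ) (Y : ℝ) : Finset (Finset ℕ) :=
  (powersetCard k (range (H + 1))).filter (fun A => Admissible A ∧ (hits A H : ℝ) < Y)

lemma adm_image {m : ℕ} (s : Fin m → ℕ) (a : ℕ) : Admissible ((free m s a).image s) := by
  intro p hp
  by_cases hpm : p ≤ m
  · refine ⟨(p - a % p) % p, Nat.mod_lt _ hp.pos, fun b hb h => ?_⟩
    rw [mem_image] at hb
    obtain ⟨i, hi, rfl⟩ := hb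
    have h1 := (mem_filter.1 hi).2 p hp hpm
    apply h1
    rw [Nat.dvd_iff_mod_eq_zero, Nat.add_mod, h]
    have h2 : a % p < p := Nat.mod_lt _ hp.pos
    rcases Nat.eq_zero_or_pos (a % p) with h3 | h3
    · rw [h3]; simp
    · rw [Nat.mod_eq_of_lt (show p - a % p < p by omega)]
      rw [Nat.add_sub_cancel' h2.le, Nat.mod_self]
  · push Not at hpm
    by_contra hcon
    push Not at hcon
    have h1 : range p ⊆ ((free m s a).image s).image (fun b => b % p) := by
      intro r hr
      rw [mem_range] at hr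
      obtain ⟨b, hb, hbr⟩ := hcon r hr
      exact mem_image.2 ⟨b, hb, hbr⟩
    have h2 := (card_le_card h1).trans card_image_le
    rw [card_range] at h2
    have h3 : ((free m s a).image s).card ≤ m := by
      refine card_image_le.trans ?_
      refine (card_filter_le _ _).trans ?_
      rw [card_univ, Fintype.card_fin]
    omega

/-- the tuples mapping `T` into `B` -/
lemma card_into (m H : ℕ) (T : Finset (Fin m)) (B : Finset ℕ) :
    (((Fintype.piFinset (fun _ : Fin m => range (H + 1))).filter (fun s => ∀ i ∈ T, s i ∈ B)).card) ≤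
      B.card ^ T.card * (H + 1) ^ (m - T.card) := by
  have h1 : (Fintype.piFinset (fun _ : Fin m => range (H + 1))).filter (fun s => ∀ i ∈ T, s i ∈ B) ⊆
      Fintype.piFinset (fun i : Fin m => if i ∈ T then B else range (H + 1)) := by
    intro s hs
    rw [mem_filter, Fintype.mem_piFinset] at hs
    rw [Fintype.mem_piFinset]
    intro i
    split_ifs with hi
    · exact hs.2 i hi
    · exact hs.1 i
  refine (card_le_card h1).trans (le_of_eq ?_)
  rw [Fintype.card_piFinset]
  have h2 : ∀ i : Fin m, (if i ∈ T then B else range (H + 1)).card = if i ∈ T then B.card else (H + 1) := by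
    intro i
    split_ifs
    · rfl
    · exact card_range _
  rw [prod_congr rfl fun i _ => h2 i, prod_ite, prod_const, prod_const]
  congr 2
  · congr 1
    ext i
    simp
  · rw [filter_not, card_sdiff_of_subset (filter_subset _ _), card_univ, Fintype.card_fin]
    congr 2
    ext i
    simp

/-- one size of bad sets -/
lemma one_size (m H k t : ℕ) (hk : 1 ≤ k) (hkt : k ≤ t) (htm : t ≤ m) (hmH : m ≤ H + 1) (E : ℝ) (b : ℕ)
    (hb : (b : ℝ) ≤ Real.exp (-E) * ((H + 1).choose k : ℝ)) :
    (b : ℝ) * ((k : ℝ) ^ t * (H + 1 : ℝ) ^ (m - t)) ≤ Real.exp (-E) * Real.exp m * (H + 1 : ℝ) ^ m := by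
  have hH0 : (0 : ℝ) < (H : ℝ) + 1 := by positivity
  have h1 : ((H + 1).choose k : ℝ) ≤ ((H : ℝ) + 1) ^ k / (k.factorial : ℝ) := by
    have := Nat.choose_le_pow_div (α := ℝ) k (H + 1)
    push_cast at this
    exact this
  have h2 : (k : ℝ) ^ k / (k.factorial : ℝ) ≤ Real.exp k := Real.pow_div_factorial_le_exp _ (Nat.cast_nonneg k) k
  have h3 : (k : ℝ) ^ (t - k) ≤ ((H : ℝ) + 1) ^ (t - k) := by
    apply pow_le_pow_left₀ (Nat.cast_nonneg k)
    exact_mod_cast (by omega : k ≤ H + 1)
  have hf : (0 : ℝ) < (k.factorial : ℝ) := by exact_mod_cast Nat.factorial_pos k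
  have e1 : (k : ℝ) ^ t = (k : ℝ) ^ k * (k : ℝ) ^ (t - k) := by rw [← pow_add]; congr 1; omega
  have e2 : ((H : ℝ) + 1) ^ k * (((H : ℝ) + 1) ^ (t - k) * ((H : ℝ) + 1) ^ (m - t)) = ((H : ℝ) + 1) ^ m := by
    rw [← pow_add, ← pow_add]; congr 1; omega
  have h4 : Real.exp k ≤ Real.exp m := Real.exp_le_exp.2 (by exact_mod_cast hkt.trans htm)
  calc (b : ℝ) * ((k : ℝ) ^ t * (H + 1 : ℝ) ^ (m - t)) ≤
      (Real.exp (-E) * (((H : ℝ) + 1) ^ k / (k.factorial : ℝ))) * (((k : ℝ) ^ k * ((H : ℝ) + 1) ^ (t - k)) * (H + 1 : ℝ) ^ (m - t)) := by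
        rw [e1]
        gcongr
        exact hb.trans (mul_le_mul_of_nonneg_left h1 (Real.exp_pos _).le)
    _ = Real.exp (-E) * ((k : ℝ) ^ k / (k.factorial : ℝ)) * (((H : ℝ) + 1) ^ k * (((H : ℝ) + 1) ^ (t - k) * ((H : ℝ) + 1) ^ (m - t))) := by
        field_simp
    _ ≤ Real.exp (-E) * Real.exp m * (H + 1 : ℝ) ^ m := by
        rw [e2]
        gcongr
        exact h2.trans h4

/-- **Almost all tuples of at most `(log H)^(1/51)` shifts are good.** -/
theorem almost_good : ∃ H₀ : ℕ, ∀ H : ℕ, H₀ ≤ H → ∀ m : ℕ, (m : ℝ) ≤ Real.log H ^ (1 / 51 : ℝ) →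
    (((Fintype.piFinset (fun _ : Fin m => range (H + 1))).filter
      (fun s => ¬ Good s H (H * Real.exp (-(Real.log H ^ (1 / 24 : ℝ)))))).card : ℝ) ≤
      Real.exp (-(Real.log H ^ (1 / 51 : ℝ))) * (H + 1 : ℝ) ^ m := by
  obtain ⟨H₁, h1⟩ := Pool.Agent.Results.MP_f686a1_nt.AlmostAllManyShifts.result
  have hlim : Filter.Tendsto (fun H : ℕ => Real.log (H : ℝ) ^ (1 / 2550 : ℝ)) Filter.atTop Filter.atTop :=
    (tendsto_rpow_atTop (show (0 : ℝ) < 1 / 2550 by norm_num)).comp (Real.tendsto_log_atTop.comp (tendsto_natCast_atTop_atTop (R := ℝ)))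
  obtain ⟨H₂, h2⟩ := Filter.eventually_atTop.1 (hlim.eventually_ge_atTop 4)
  refine ⟨max (max H₁ H₂) 3, fun H hH m hm => ?_⟩
  have hH1 : H₁ ≤ H := ((le_max_left _ _).trans (le_max_left _ _)).trans hH
  have hH2 : H₂ ≤ H := ((le_max_right _ _).trans (le_max_left _ _)).trans hH
  have hH3 : 3 ≤ H := (le_max_right _ _).trans hH
  have hH0 : (0 : ℝ) < H := by exact_mod_cast (by omega : 0 < H)
  have hlog : 1 ≤ Real.log (H : ℝ) := by
    rw [Real.le_log_iff_exp_le hH0]
    have h3 : (3 : ℝ) ≤ H := by exact_mod_cast hH3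
    have := Real.exp_one_lt_d9
    linarith
  have hlog0 : 0 < Real.log (H : ℝ) := by linarith
  set E := Real.log H ^ (1 / 50 : ℝ) with hE
  set F := Real.log H ^ (1 / 51 : ℝ) with hF
  have hF1 : 1 ≤ F := Real.one_le_rpow hlog (by norm_num)
  have hEF : 4 * F ≤ E := by
    have e1 : E = Real.log H ^ (1 / 2550 : ℝ) * F := by
      rw [hE, hF, ← Real.rpow_add hlog0]
      norm_num
    rw [e1]
    exact mul_le_mul_of_nonneg_right (h2 H hH2) (by linarith)
  set Y := (H : ℝ) * Real.exp (-(Real.log H ^ (1 / 24 : ℝ))) with hY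
  have hFle : F ≤ H := by
    calc F ≤ Real.log H ^ (1 : ℝ) := Real.rpow_le_rpow_of_exponent_le hlog (by norm_num)
      _ = Real.log H := Real.rpow_one _
      _ ≤ H := (Real.log_le_sub_one_of_pos hH0).trans (by linarith)
  have hmH : m ≤ H + 1 := by
    have : (m : ℝ) ≤ (H : ℝ) := hm.trans hFle
    have : m ≤ H := by exact_mod_cast this
    omega
  -- the covering
  have hsub : (Fintype.piFinset (fun _ : Fin m => range (H + 1))).filter (fun s => ¬ Good s H Y) ⊆
      (univ : Finset (Finset (Fin m))).biUnion (fun T => (Icc 1 T.card).biUnion (fun k => (bad H k Y).biUnion (fun B =>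
        (Fintype.piFinset (fun _ : Fin m => range (H + 1))).filter (fun s => ∀ i ∈ T, s i ∈ B)))) := by
    intro s hs
    rw [mem_filter] at hs
    obtain ⟨hs1, hs2⟩ := hs
    unfold Good at hs2
    push Not at hs2
    obtain ⟨a, ha⟩ := hs2
    rw [mem_biUnion]
    refine ⟨free m s a, mem_univ _, ?_⟩
    rw [mem_biUnion]
    have hne : (free m s a).Nonempty := by
      by_contra hcon
      rw [not_nonempty_iff_eq_empty] at hcon
      rw [hcon] at ha
      have e1 : (Icc 1 H).filter (fun n : ℕ => ∀ i ∈ (∅ : Finset (Fin m)), (n + s i).Prime) = Icc 1 H := by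
        apply filter_true_of_mem
        intro n _ i hi
        simp at hi
      rw [e1, Nat.card_Icc, Nat.add_sub_cancel] at ha
      have e2 : Y ≤ H := by
        rw [hY]
        refine mul_le_of_le_one_right hH0.le ?_
        rw [Real.exp_le_one_iff]
        have : 0 ≤ Real.log (H : ℝ) ^ (1 / 24 : ℝ) := Real.rpow_nonneg hlog0.le _
        linarith
      linarith
    refine ⟨((free m s a).image s).card, mem_Icc.2 ⟨card_pos.2 (hne.image s), card_image_le⟩, ?_⟩
    rw [mem_biUnion]
    refine ⟨(free m s a).image s, ?_, ?_⟩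
    · unfold bad
      rw [mem_filter, mem_powersetCard]
      refine ⟨⟨?_, rfl⟩, adm_image s a, ?_⟩
      · intro x hx
        rw [mem_image] at hx
        obtain ⟨i, _, rfl⟩ := hx
        exact (Fintype.mem_piFinset.1 hs1) i
      · refine lt_of_le_of_lt (le_of_eq ?_) ha
        unfold hits
        congr 2
        ext n
        rw [mem_filter, mem_filter]
        constructor
        · rintro ⟨g1, g2⟩
          exact ⟨g1, fun i hi => g2 _ (mem_image_of_mem s hi)⟩
        · rintro ⟨g1, g2⟩
          refine ⟨g1, fun b hb => ?_⟩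
          rw [mem_image] at hb
          obtain ⟨i, hi, rfl⟩ := hb
          exact g2 i hi
    · rw [mem_filter]
      exact ⟨hs1, fun i hi => mem_image_of_mem s hi⟩
  have hbad : ∀ k : ℕ, 1 ≤ k → k ≤ m → ((bad H k Y).card : ℝ) ≤ Real.exp (-E) * ((H + 1).choose k : ℝ) := by
    intro k hk hkm
    have hkE : (k : ℝ) ≤ Real.log H ^ (1 / 50 : ℝ) := by
      have e1 : (k : ℝ) ≤ m := by exact_mod_cast hkm
      have e2 : F ≤ E := by linarith
      exact (e1.trans hm).trans e2
    refine (h1 H hH1 k hk hkE).trans ?_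
    apply mul_le_mul_of_nonneg_left _ (Real.exp_pos _).le
    have := card_filter_le (powersetCard k (range (H + 1))) (fun A => Admissible A)
    rw [card_powersetCard, card_range] at this
    exact_mod_cast this
  have hcount : (((univ : Finset (Finset (Fin m))).biUnion (fun T => (Icc 1 T.card).biUnion (fun k => (bad H k Y).biUnion (fun B =>
        (Fintype.piFinset (fun _ : Fin m => range (H + 1))).filter (fun s => ∀ i ∈ T, s i ∈ B))))).card : ℝ) ≤
      ∑ _T : Finset (Fin m), ∑ _k ∈ Icc 1 m, Real.exp (-E) * Real.exp m * (H + 1 : ℝ) ^ m := by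
    have e1 := card_biUnion_le (s := (univ : Finset (Finset (Fin m)))) (t := fun T => (Icc 1 T.card).biUnion (fun k => (bad H k Y).biUnion (fun B =>
        (Fintype.piFinset (fun _ : Fin m => range (H + 1))).filter (fun s => ∀ i ∈ T, s i ∈ B))))
    have e2 : (((univ : Finset (Finset (Fin m))).biUnion (fun T => (Icc 1 T.card).biUnion (fun k => (bad H k Y).biUnion (fun B =>
        (Fintype.piFinset (fun _ : Fin m => range (H + 1))).filter (fun s => ∀ i ∈ T, s i ∈ B))))).card : ℝ) ≤
        ∑ T : Finset (Fin m), (((Icc 1 T.card).biUnion (fun k => (bad H k Y).biUnion (fun B =>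
        (Fintype.piFinset (fun _ : Fin m => range (H + 1))).filter (fun s => ∀ i ∈ T, s i ∈ B)))).card : ℝ) := by
      exact_mod_cast e1
    refine e2.trans (sum_le_sum fun T _ => ?_)
    have hT : T.card ≤ m := by
      refine (card_le_univ T).trans ?_
      rw [Fintype.card_fin]
    have e3 : (((Icc 1 T.card).biUnion (fun k => (bad H k Y).biUnion (fun B =>
        (Fintype.piFinset (fun _ : Fin m => range (H + 1))).filter (fun s => ∀ i ∈ T, s i ∈ B)))).card : ℝ) ≤
        ∑ k ∈ Icc 1 T.card, (((bad H k Y).biUnion (fun B =>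
        (Fintype.piFinset (fun _ : Fin m => range (H + 1))).filter (fun s => ∀ i ∈ T, s i ∈ B))).card : ℝ) := by
      exact_mod_cast card_biUnion_le
    refine e3.trans ?_
    have e4 : ∀ k ∈ Icc 1 T.card, (((bad H k Y).biUnion (fun B =>
        (Fintype.piFinset (fun _ : Fin m => range (H + 1))).filter (fun s => ∀ i ∈ T, s i ∈ B))).card : ℝ) ≤
        Real.exp (-E) * Real.exp m * (H + 1 : ℝ) ^ m := by
      intro k hk
      rw [mem_Icc] at hk
      have e5 : (((bad H k Y).biUnion (fun B =>
        (Fintype.piFinset (fun _ : Fin m => range (H + 1))).filter (fun s => ∀ i ∈ T, s i ∈ B))).card : ℝ) ≤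
          ∑ B ∈ bad H k Y, (((Fintype.piFinset (fun _ : Fin m => range (H + 1))).filter (fun s => ∀ i ∈ T, s i ∈ B)).card : ℝ) := by
        exact_mod_cast card_biUnion_le
      refine e5.trans ?_
      calc ∑ B ∈ bad H k Y, (((Fintype.piFinset (fun _ : Fin m => range (H + 1))).filter (fun s => ∀ i ∈ T, s i ∈ B)).card : ℝ) ≤
          ∑ _B ∈ bad H k Y, ((k : ℝ) ^ T.card * (H + 1 : ℝ) ^ (m - T.card)) := by
            refine sum_le_sum fun B hB => ?_
            have hBk : B.card = k := (mem_powersetCard.1 (mem_filter.1 hB).1).2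
            have := card_into m H T B
            rw [hBk] at this
            exact_mod_cast this
        _ = ((bad H k Y).card : ℝ) * ((k : ℝ) ^ T.card * (H + 1 : ℝ) ^ (m - T.card)) := by
            rw [sum_const, nsmul_eq_mul]
        _ ≤ _ := one_size m H k T.card hk.1 hk.2 hT hmH E _ (hbad k hk.1 (hk.2.trans hT))
    refine (sum_le_sum e4).trans ?_
    exact sum_le_sum_of_subset_of_nonneg (Icc_subset_Icc le_rfl hT) fun _ _ _ => by positivity
  have hfin : ∑ _T : Finset (Fin m), ∑ _k ∈ Icc 1 m, Real.exp (-E) * Real.exp m * (H + 1 : ℝ) ^ m ≤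
      Real.exp (-F) * (H + 1 : ℝ) ^ m := by
    rw [sum_const, sum_const, card_univ, Fintype.card_finset, Fintype.card_fin, Nat.card_Icc, Nat.add_sub_cancel, nsmul_eq_mul,
      nsmul_eq_mul]
    push_cast
    have e1 : (2 : ℝ) ^ m ≤ Real.exp m := by
      have : (2 : ℝ) ≤ Real.exp 1 := by have := Real.add_one_le_exp (1 : ℝ); linarith
      calc (2 : ℝ) ^ m ≤ Real.exp 1 ^ m := pow_le_pow_left₀ (by norm_num) this m
        _ = Real.exp m := by rw [← Real.exp_nat_mul, mul_one]
    have e2 : (m : ℝ) ≤ Real.exp m := by have := Real.add_one_le_exp (m : ℝ); linarith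
    calc (2 : ℝ) ^ m * ((m : ℝ) * (Real.exp (-E) * Real.exp m * (H + 1 : ℝ) ^ m)) ≤
        Real.exp m * (Real.exp m * (Real.exp (-E) * Real.exp m * (H + 1 : ℝ) ^ m)) := by gcongr
      _ = Real.exp (3 * m - E) * (H + 1 : ℝ) ^ m := by
          rw [show (3 * (m : ℝ) - E) = m + (m + (-E + m)) by ring, Real.exp_add, Real.exp_add, Real.exp_add]
          ring
      _ ≤ Real.exp (-F) * (H + 1 : ℝ) ^ m := by
          apply mul_le_mul_of_nonneg_right _ (by positivity)
          apply Real.exp_le_exp.2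
          linarith
  refine le_trans ?_ (hcount.trans hfin)
  exact_mod_cast card_le_card hsub

/-- a prime point beyond `m` has no small prime factor -/
lemma prime_free {m : ℕ} (s : Fin m → ℕ) (n : ℕ) (hn : m < n) :
    (univ.filter fun i => (n + s i).Prime) ⊆ free m s n := by
  intro i hi
  rw [mem_filter] at hi
  unfold free
  rw [mem_filter]
  refine ⟨mem_univ _, fun p hp hpm hd => ?_⟩
  have := (Nat.prime_dvd_prime_iff_eq hp hi.2).1 hd
  omega

/-- **The number of primes of a good window is the sieve count.** -/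
theorem good_max {m : ℕ} (s : Fin m → ℕ) (H : ℕ) (Y : ℝ) (hY : (m : ℝ) < Y) (h : Good s H Y) :
    IsGreatest {x : ℕ | ∃ a : ℕ, x = (free m s a).card} (rho s H) := by
  have hup : ∀ a : ℕ, (free m s a).card ≤ rho s H := by
    intro a
    have h1 := h a
    have h2 : ∃ n ∈ (Icc 1 H).filter (fun n : ℕ => ∀ i ∈ free m s a, (n + s i).Prime), m < n := by
      by_contra hcon
      push Not at hcon
      have h3 : (Icc 1 H).filter (fun n : ℕ => ∀ i ∈ free m s a, (n + s i).Prime) ⊆ Icc 1 m := by
        intro n hn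
        exact mem_Icc.2 ⟨(mem_Icc.1 (mem_filter.1 hn).1).1, hcon n hn⟩
      have h4 := card_le_card h3
      rw [Nat.card_Icc, Nat.add_sub_cancel] at h4
      have h5 : (((Icc 1 H).filter (fun n : ℕ => ∀ i ∈ free m s a, (n + s i).Prime)).card : ℝ) ≤ m := by exact_mod_cast h4
      linarith
    obtain ⟨n, hn, hmn⟩ := h2
    rw [mem_filter, mem_Icc] at hn
    have h6 : (free m s a).card ≤ primesAt s n := by
      unfold primesAt
      apply card_le_card
      intro i hi
      rw [mem_filter]
      exact ⟨mem_univ _, hn.2 i hi⟩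
    refine h6.trans ?_
    unfold rho
    exact le_sup (f := primesAt s) (mem_Ioc.2 ⟨hmn, hn.1.2⟩)
  refine ⟨?_, ?_⟩
  · -- attained
    have hne : (Ioc m H).Nonempty := by
      have h1 := h 0
      have h2 : ((Icc 1 H).filter (fun n : ℕ => ∀ i ∈ free m s 0, (n + s i).Prime)).card ≤ H := by
        refine (card_filter_le _ _).trans ?_
        rw [Nat.card_Icc, Nat.add_sub_cancel]
      have h3 : (m : ℝ) < H := lt_of_lt_of_le hY (h1.trans (by exact_mod_cast h2))
      have h4 : m < H := by exact_mod_cast h3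
      exact nonempty_Ioc.2 h4
    obtain ⟨n, hn, hmax⟩ := exists_mem_eq_sup _ hne (primesAt s)
    refine ⟨n, le_antisymm ?_ (hup n)⟩
    unfold rho
    rw [hmax]
    exact card_le_card (prime_free s n (mem_Ioc.1 hn).1)
  · rintro x ⟨a, rfl⟩
    exact hup a

end Pool.Agent.Run7.h794.RW
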