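import Mathlib
import Pool.Agent.Run7.h794.RW.A
import Pool.Agent.Run7.h794.MK.Hoe
import Pool.Agent.H305R2.MertensE
import Pool.Agent.Cov.PNT

/-! The sieve counts of random windows: the maximum is `(exp (-γ) + o(1)) m / log m` (helper794). -/

set_option autoImplicit false

namespace Pool.Agent.Run7.h794.RW

open Finset Filter Topology
open scoped Classical

lemma free_cop {m : ℕ} (z : ℕ) (s : Fin m → ℕ) (n : ℕ) :
    free z s n = univ.filter fun i => (primorial z).Coprime (n + s i) := by
  unfold free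
  ext i
  rw [mem_filter, mem_filter]
  refine and_congr_right fun _ => ?_
  rw [Nat.coprime_comm, ← not_iff_not, Nat.Prime.not_coprime_iff_dvd]
  push Not
  constructor
  · rintro ⟨p, hp, hpz, hd⟩
    exact ⟨p, hp, hd, hp.dvd_primorial_iff.2 hpz⟩
  · rintro ⟨p, hp, hd, hpz⟩
    exact ⟨p, hp, hp.dvd_primorial_iff.1 hpz, hd⟩

lemma free_mod {m : ℕ} (z : ℕ) (s : Fin m → ℕ) (n : ℕ) : free z s n = free z s (n % primorial z) := by
  rw [free_cop, free_cop]
  ext i
  rw [mem_filter, mem_filter]
  refine and_congr_right fun _ => ?_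
  have h1 : n + s i = (n % primorial z + s i) + primorial z * (n / primorial z) := by
    have := Nat.mod_add_div n (primorial z)
    omega
  rw [h1, Nat.coprime_add_mul_left_right]

lemma free_anti {m : ℕ} {z z' : ℕ} (h : z ≤ z') (s : Fin m → ℕ) (n : ℕ) : free z' s n ⊆ free z s n := by
  intro i hi
  unfold free at hi ⊢
  rw [mem_filter] at hi ⊢
  exact ⟨mem_univ _, fun p hp hpz => hi.2 p hp (hpz.trans h)⟩

/-- the mean of the sieve count -/
lemma exists_ge {m : ℕ} (s : Fin m → ℕ) (z : ℕ) : ∃ a : ℕ,
    (m : ℝ) * ((primorial z).totient / primorial z) ≤ (free z s a).card := by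
  have hP : 0 < primorial z := primorial_pos z
  have hP0 : (0 : ℝ) < (primorial z : ℝ) := by exact_mod_cast hP
  by_contra hcon
  push Not at hcon
  have h1 : ∑ a ∈ range (primorial z), (((free z s a).card : ℕ) : ℝ) = m * (primorial z).totient := by
    have e1 : ∑ a ∈ range (primorial z), (free z s a).card = ∑ i : Fin m, ((range (primorial z)).filter
        (fun a => (primorial z).Coprime (a + s i))).card := by
      simp_rw [free_cop, card_filter]
      rw [sum_comm]
    have e2 : ∀ i : Fin m, ((range (primorial z)).filter (fun a => (primorial z).Coprime (a + s i))).card = (primorial z).totient := by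
      intro i
      rw [← Nat.filter_coprime_Ico_eq_totient (primorial z) (s i)]
      apply card_bij (fun a _ => a + s i)
      · intro a ha
        rw [mem_filter, mem_range] at ha
        rw [mem_filter, mem_Ico]
        exact ⟨⟨by omega, by omega⟩, ha.2⟩
      · intro a _ b _ h
        omega
      · intro b hb
        rw [mem_filter, mem_Ico] at hb
        refine ⟨b - s i, ?_, by omega⟩
        rw [mem_filter, mem_range]
        refine ⟨by omega, ?_⟩
        rw [Nat.sub_add_cancel hb.1.1]
        exact hb.2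
    have e3 : ∑ a ∈ range (primorial z), (free z s a).card = m * (primorial z).totient := by
      rw [e1, sum_congr rfl fun i _ => e2 i, sum_const, card_univ, Fintype.card_fin, smul_eq_mul]
    exact_mod_cast e3
  have h2 : ∑ a ∈ range (primorial z), (((free z s a).card : ℕ) : ℝ) <
      ∑ _a ∈ range (primorial z), (m : ℝ) * ((primorial z).totient / primorial z) :=
    sum_lt_sum_of_nonempty ⟨0, mem_range.2 hP⟩ fun a _ => hcon a
  rw [h1, sum_const, card_range, nsmul_eq_mul] at h2
  have h3 : (primorial z : ℝ) * ((m : ℝ) * ((primorial z).totient / primorial z)) = m * (primorial z).totient := by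
    field_simp
  rw [h3] at h2
  exact lt_irrefl _ h2

/-- Chernoff's bound for one sieved window -/
lemma one_class (m H z a : ℕ) (u t θ' : ℝ) (hu : 0 ≤ u)
    (hθ : ((primorial z).totient : ℝ) * (((H + 1) / primorial z + 1 : ℕ) : ℝ) ≤ θ' * (H + 1)) :
    (((Fintype.piFinset (fun _ : Fin m => range (H + 1))).filter (fun s => t ≤ ((free z s a).card : ℝ))).card : ℝ) ≤
      (H + 1 : ℝ) ^ m * Real.exp (m * ((Real.exp u - 1) * θ') - u * t) := by
  have hP : 0 < primorial z := primorial_pos z
  have hu1 : 0 ≤ Real.exp u - 1 := by have := Real.add_one_le_exp u; linarith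
  obtain ⟨w, hw⟩ : ∃ w : Fin m → ℕ → ℝ, w = fun _ b => if (primorial z).Coprime (a + b) then u else 0 := ⟨_, rfl⟩
  have h1 : ∀ l : Fin m, ∑ b ∈ range (H + 1), Real.exp (w l b) ≤ ((range (H + 1)).card : ℝ) * Real.exp ((Real.exp u - 1) * θ') := by
    intro l
    have e1 : ∀ b ∈ range (H + 1), Real.exp (w l b) = 1 + (Real.exp u - 1) * (if (primorial z).Coprime (a + b) then 1 else 0) := by
      intro b _
      rw [hw]
      dsimp only
      split_ifs
      · ring
      · rw [Real.exp_zero]; ring
    rw [sum_congr rfl e1, sum_add_distrib, ← mul_sum, sum_const, card_range, nsmul_eq_mul, mul_one]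
    have e2 : ∑ b ∈ range (H + 1), (if (primorial z).Coprime (a + b) then (1 : ℝ) else 0) ≤ θ' * (H + 1) := by
      refine le_trans ?_ hθ
      have e3 : ∑ b ∈ range (H + 1), (if (primorial z).Coprime (a + b) then (1 : ℝ) else 0) =
          (((Ico a (a + (H + 1))).filter (fun x => (primorial z).Coprime x)).card : ℝ) := by
        rw [card_filter]
        push_cast
        rw [sum_Ico_eq_sum_range, Nat.add_sub_cancel_left]
      rw [e3]
      exact_mod_cast Nat.Ico_filter_coprime_le a (H + 1) hP.ne'
    have e4 : (Real.exp u - 1) * ∑ b ∈ range (H + 1), (if (primorial z).Coprime (a + b) then (1 : ℝ) else 0) ≤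
        (Real.exp u - 1) * (θ' * (H + 1)) := mul_le_mul_of_nonneg_left e2 hu1
    have e5 := Real.add_one_le_exp ((Real.exp u - 1) * θ')
    have e6 : ((H + 1 : ℕ) : ℝ) * (1 + (Real.exp u - 1) * θ') ≤ ((H + 1 : ℕ) : ℝ) * Real.exp ((Real.exp u - 1) * θ') :=
      mul_le_mul_of_nonneg_left (by linarith) (Nat.cast_nonneg _)
    push_cast at e6 ⊢
    nlinarith
  have h2 := Pool.Agent.Run7.h794.MK.chernoff (range (H + 1)) m w (fun _ => (Real.exp u - 1) * θ') (u * t) h1
  rw [card_range, sum_const, card_univ, Fintype.card_fin, nsmul_eq_mul] at h2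
  push_cast at h2
  refine le_trans ?_ h2
  have h3 : (Fintype.piFinset (fun _ : Fin m => range (H + 1))).filter (fun s => t ≤ ((free z s a).card : ℝ)) ⊆
      (Fintype.piFinset (fun _ : Fin m => range (H + 1))).filter (fun s => u * t ≤ ∑ l, w l (s l)) := by
    intro s hs
    rw [mem_filter] at hs ⊢
    refine ⟨hs.1, ?_⟩
    have e1 : ∑ l, w l (s l) = u * ((free z s a).card : ℝ) := by
      rw [free_cop, card_filter, hw]
      push_cast
      rw [mul_sum]
      apply sum_congr rfl
      intro l _
      split_ifs <;> simp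
    rw [e1]
    exact mul_le_mul_of_nonneg_left hs.2 hu
  exact_mod_cast card_le_card h3

/-- all the classes -/
lemma all_classes (m H z : ℕ) (u t θ' : ℝ) (hu : 0 ≤ u)
    (hθ : ((primorial z).totient : ℝ) * (((H + 1) / primorial z + 1 : ℕ) : ℝ) ≤ θ' * (H + 1)) :
    (((Fintype.piFinset (fun _ : Fin m => range (H + 1))).filter (fun s => ∃ a : ℕ, t ≤ ((free z s a).card : ℝ))).card : ℝ) ≤
      (H + 1 : ℝ) ^ m * Real.exp (z * Real.log 4 + (m * ((Real.exp u - 1) * θ') - u * t)) := by
  have h1 : (Fintype.piFinset (fun _ : Fin m => range (H + 1))).filter (fun s => ∃ a : ℕ, t ≤ ((free z s a).card : ℝ)) ⊆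
      (range (primorial z)).biUnion (fun a => (Fintype.piFinset (fun _ : Fin m => range (H + 1))).filter
        (fun s => t ≤ ((free z s a).card : ℝ))) := by
    intro s hs
    rw [mem_filter] at hs
    obtain ⟨hs1, a, ha⟩ := hs
    rw [mem_biUnion]
    refine ⟨a % primorial z, mem_range.2 (Nat.mod_lt _ (primorial_pos z)), ?_⟩
    rw [mem_filter]
    refine ⟨hs1, ?_⟩
    rw [← free_mod]
    exact ha
  have h2 : (((Fintype.piFinset (fun _ : Fin m => range (H + 1))).filter (fun s => ∃ a : ℕ, t ≤ ((free z s a).card : ℝ))).card : ℝ) ≤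
      ∑ a ∈ range (primorial z), (((Fintype.piFinset (fun _ : Fin m => range (H + 1))).filter
        (fun s => t ≤ ((free z s a).card : ℝ))).card : ℝ) := by
    exact_mod_cast (card_le_card h1).trans card_biUnion_le
  refine h2.trans ?_
  refine (sum_le_sum fun a _ => one_class m H z a u t θ' hu hθ).trans ?_
  rw [sum_const, card_range, nsmul_eq_mul, Real.exp_add]
  have h3 : (primorial z : ℝ) ≤ Real.exp (z * Real.log 4) := by
    have e1 : (primorial z : ℝ) ≤ 4 ^ z := by exact_mod_cast primorial_le_four_pow z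
    refine e1.trans (le_of_eq ?_)
    rw [mul_comm, Real.exp_mul, Real.exp_log (by norm_num), Real.rpow_natCast]
  calc (primorial z : ℝ) * ((H + 1 : ℝ) ^ m * Real.exp (m * ((Real.exp u - 1) * θ') - u * t)) =
      (H + 1 : ℝ) ^ m * ((primorial z : ℝ) * Real.exp (m * ((Real.exp u - 1) * θ') - u * t)) := by ring
    _ ≤ _ := by gcongr

/-- the density of the sieve -/
noncomputable def dn (z : ℕ) : ℝ := (primorial z).totient / primorial z

lemma dn_eq (z : ℕ) : dn z = ∏ p ∈ (Icc 1 z).filter Nat.Prime, (1 - (p : ℝ)⁻¹) := by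
  unfold dn
  have h1 := Nat.totient_eq_mul_prod_factors (primorial z)
  have h2 : (((primorial z).totient : ℚ) : ℝ) = ((primorial z : ℚ) * ∏ p ∈ (primorial z).primeFactors, (1 - (p : ℚ)⁻¹) : ℚ) := by
    exact_mod_cast congrArg (fun x : ℚ => (x : ℝ)) h1
  push_cast at h2
  rw [h2]
  have hP0 : (0 : ℝ) < (primorial z : ℝ) := by exact_mod_cast primorial_pos z
  rw [mul_div_assoc, mul_comm, div_mul_cancel₀ _ hP0.ne']
  apply prod_congr _ fun _ _ => rfl
  rw [primeFactors_primorial]
  ext p
  rw [Nat.mem_primesLE, mem_filter, mem_Icc]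
  constructor
  · rintro ⟨h3, h4⟩
    exact ⟨⟨h4.one_lt.le, h3⟩, h4⟩
  · rintro ⟨⟨_, h3⟩, h4⟩
    exact ⟨h3, h4⟩

lemma dn_tendsto : Tendsto (fun z : ℕ => dn z * Real.log z) atTop (𝓝 (Real.exp (-Real.eulerMascheroniConstant))) := by
  have h1 := (Pool.Agent.H305R2.mertens_three).inv₀ (Real.exp_pos _).ne'
  rw [← Real.exp_neg] at h1
  refine h1.congr fun z => ?_
  rw [dn_eq, prod_inv_distrib, inv_div, div_inv_eq_mul, mul_comm]

end Pool.Agent.Run7.h794.RW
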