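import Mathlib
import Pool.Agent.Run7.h794.RW.B

/-! The maximal number of primes in random windows of `m` points is `(exp (-γ) + o(1)) m / log m` (helper794). -/

set_option autoImplicit false

namespace Pool.Agent.Run7.h794.RW

open Finset Filter Topology
open scoped Classical

/-- `exp (-γ)` -/
noncomputable def xx : ℝ := Real.exp (-Real.eulerMascheroniConstant)

lemma xx_pos : 0 < xx := Real.exp_pos _

lemma xx_le : xx ≤ 61 / 100 := by
  have h1 := Real.one_half_lt_eulerMascheroniConstant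
  have h2 : xx ≤ Real.exp (-(1 / 2)) := Real.exp_le_exp.2 (by linarith)
  refine h2.trans ?_
  rw [Real.exp_neg]
  have h3 : (100 / 61 : ℝ) ≤ Real.exp (1 / 2) := by
    have := Real.sum_le_exp_of_nonneg (show (0 : ℝ) ≤ 1 / 2 by norm_num) 4
    simp only [sum_range_succ, sum_range_zero, Nat.factorial] at this
    norm_num at this ⊢
    linarith
  calc (Real.exp (1 / 2))⁻¹ ≤ (100 / 61 : ℝ)⁻¹ := inv_anti₀ (by norm_num) h3
    _ = 61 / 100 := by norm_num

/-- the sieve limit for the upper bound -/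
noncomputable def zz (c : ℝ) (m : ℕ) : ℕ := ⌊c * (m / Real.log m)⌋₊

lemma log_nat_tendsto : Tendsto (fun m : ℕ => Real.log (m : ℝ)) atTop atTop :=
  Real.tendsto_log_atTop.comp (tendsto_natCast_atTop_atTop (R := ℝ))

lemma div_log_tendsto : Tendsto (fun m : ℕ => (m : ℝ) / Real.log m) atTop atTop := by
  have h1 : Tendsto (fun y : ℝ => y / Real.log y) atTop atTop := by
    have h2 := Real.isLittleO_log_id_atTop
    have h3 : Tendsto (fun y : ℝ => Real.log y / y) atTop (𝓝 0) := h2.tendsto_div_nhds_zero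
    have h4 : ∀ᶠ y : ℝ in atTop, 0 < Real.log y / y := by
      filter_upwards [eventually_gt_atTop (1 : ℝ)] with y hy
      exact div_pos (Real.log_pos hy) (by linarith)
    have h5 := (tendsto_nhdsWithin_of_tendsto_nhds_of_eventually_within _ h3 h4).inv_tendsto_nhdsGT_zero
    refine h5.congr fun y => ?_
    rw [Pi.inv_apply, inv_div]
  exact h1.comp (tendsto_natCast_atTop_atTop (R := ℝ))

lemma zz_tendsto (c : ℝ) (hc : 0 < c) : Tendsto (zz c) atTop atTop := by
  unfold zz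
  exact tendsto_nat_floor_atTop.comp (div_log_tendsto.const_mul_atTop hc)

lemma zz_log (c η : ℝ) (hc : 0 < c) (hη : 0 < η) : ∀ᶠ m : ℕ in atTop, (1 - η) * Real.log m ≤ Real.log (zz c m) := by
  have h1 : Tendsto (fun y : ℝ => Real.log y / y) atTop (𝓝 0) := Real.isLittleO_log_id_atTop.tendsto_div_nhds_zero
  have h2 : Tendsto (fun m : ℕ => Real.log (Real.log (m : ℝ)) / Real.log m) atTop (𝓝 0) := h1.comp log_nat_tendsto
  have h3 := h2.eventually (eventually_le_nhds (show (0 : ℝ) < η / 2 by positivity))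
  have h4 := log_nat_tendsto.eventually_ge_atTop (max 1 (2 / η * |Real.log (c / 2)|))
  have h5 := (div_log_tendsto.const_mul_atTop hc).eventually_ge_atTop 2
  filter_upwards [h3, h4, h5, eventually_ge_atTop 3] with m g3 g4 g5 g6
  have hL : 1 ≤ Real.log (m : ℝ) := (le_max_left _ _).trans g4
  have hL2 := (le_max_right _ _).trans g4
  have hL0 : 0 < Real.log (m : ℝ) := by linarith
  have hm0 : (0 : ℝ) < m := by exact_mod_cast (by omega : 0 < m)
  rw [div_le_iff₀ hL0] at g3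
  obtain ⟨y, hy⟩ : ∃ y : ℝ, y = c * ((m : ℝ) / Real.log m) := ⟨_, rfl⟩
  rw [← hy] at g5
  have hz : y / 2 ≤ (zz c m : ℝ) := by
    unfold zz
    rw [← hy]
    have := Nat.lt_floor_add_one y
    linarith
  have hy0 : 0 < y / 2 := by linarith
  have h6 : Real.log (y / 2) ≤ Real.log (zz c m) := Real.log_le_log hy0 hz
  have h7 : Real.log (y / 2) = Real.log (c / 2) + Real.log m - Real.log (Real.log m) := by
    rw [hy, show c * ((m : ℝ) / Real.log m) / 2 = (c / 2) * m / Real.log m by ring,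
      Real.log_div (by positivity) hL0.ne', Real.log_mul (by positivity) hm0.ne']
  have h8 : |Real.log (c / 2)| ≤ η / 2 * Real.log m := by
    have e1 : 2 / η * |Real.log (c / 2)| * (η / 2) ≤ Real.log m * (η / 2) := mul_le_mul_of_nonneg_right hL2 (by positivity)
    have e2 : 2 / η * |Real.log (c / 2)| * (η / 2) = |Real.log (c / 2)| := by field_simp
    linarith
  have h9 := neg_abs_le (Real.log (c / 2))
  rw [h7] at h6
  linarith

/-- the density of the sieve at `zz` -/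
lemma dn_zz (c ε : ℝ) (hc : 0 < c) (hε : 0 < ε) (hε1 : ε ≤ 1) :
    ∀ᶠ m : ℕ in atTop, dn (zz c m) * Real.log m ≤ xx + ε / 4 := by
  have h1 := (dn_tendsto.comp (zz_tendsto c hc)).eventually (eventually_le_nhds (show xx < xx + ε / 8 by linarith))
  have h2 := zz_log c (ε / 16) hc (by positivity)
  filter_upwards [h1, h2, log_nat_tendsto.eventually_ge_atTop 1] with m g1 g2 g3
  have g1 : dn (zz c m) * Real.log (zz c m) ≤ xx + ε / 8 := g1
  have hd : 0 ≤ dn (zz c m) := by unfold dn; positivity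
  have h3 : (1 - ε / 16) * (dn (zz c m) * Real.log m) ≤ xx + ε / 8 := by
    calc (1 - ε / 16) * (dn (zz c m) * Real.log m) = dn (zz c m) * ((1 - ε / 16) * Real.log m) := by ring
      _ ≤ dn (zz c m) * Real.log (zz c m) := mul_le_mul_of_nonneg_left g2 hd
      _ ≤ _ := g1
  have hx := xx_le
  by_contra hcon
  push Not at hcon
  have h4 : (1 - ε / 16) * (xx + ε / 4) < (1 - ε / 16) * (dn (zz c m) * Real.log m) :=
    mul_lt_mul_of_pos_left hcon (by linarith)
  nlinarith [xx_pos]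

lemma pnt_nat (ε : ℝ) (hε : 0 < ε) : ∀ᶠ m : ℕ in atTop, (1 - ε) * ((m : ℝ) / Real.log m) ≤ Nat.primeCounting m := by
  have h1 := (Pool.Agent.Cov.PNT.pi_tendsto.comp (tendsto_natCast_atTop_atTop (R := ℝ))).eventually
    (eventually_ge_nhds (show 1 - ε < 1 by linarith))
  filter_upwards [h1, log_nat_tendsto.eventually_ge_atTop 1, eventually_ge_atTop 3] with m g1 g2 g3
  have g1 : 1 - ε ≤ (Nat.primeCounting ⌊(m : ℝ)⌋₊ : ℝ) * Real.log m / m := g1
  rw [Nat.floor_natCast] at g1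
  have hm0 : (0 : ℝ) < m := by exact_mod_cast (by omega : 0 < m)
  have hL0 : 0 < Real.log (m : ℝ) := by linarith
  rw [le_div_iff₀ hm0] at g1
  rw [← mul_div_assoc, div_le_iff₀ hL0]
  exact g1

/-- the conclusion -/
def Law {m : ℕ} (s : Fin m → ℕ) (H : ℕ) (ε : ℝ) : Prop :=
  (xx - ε) * (m / Real.log m) ≤ rho s H ∧ (rho s H : ℝ) ≤ (xx + ε) * (m / Real.log m) ∧
    (rho s H : ℝ) + m / (3 * Real.log m) ≤ Nat.primeCounting m

lemma rpow_half (L : ℝ) (hL : 9 ≤ L) : L ^ (1 / 24 : ℝ) ≤ L / 2 := by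
  have e2 : L ^ (1 / 24 : ℝ) ≤ L ^ (1 / 2 : ℝ) := Real.rpow_le_rpow_of_exponent_le (by linarith) (by norm_num)
  rw [← Real.sqrt_eq_rpow] at e2
  refine e2.trans ?_
  rw [Real.sqrt_le_iff]
  constructor
  · linarith
  · nlinarith

lemma lt_Y (m H : ℕ) (hH0 : (0 : ℝ) < H) (h9 : 9 ≤ Real.log (H : ℝ)) (hm : 2 * (m : ℝ) ≤ Real.log H) :
    (m : ℝ) < H * Real.exp (-(Real.log H ^ (1 / 24 : ℝ))) := by
  have e1 := rpow_half _ h9
  have e4 : (H : ℝ) = Real.exp (Real.log H / 2) * Real.exp (Real.log H / 2) := by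
    rw [← Real.exp_add, add_halves, Real.exp_log hH0]
  calc (m : ℝ) ≤ Real.log (H : ℝ) / 2 := by linarith
    _ < Real.exp (Real.log H / 2) := by
        have := Real.add_one_le_exp (Real.log (H : ℝ) / 2)
        linarith
    _ = H * Real.exp (-(Real.log H / 2)) := by
        nth_rw 2 [e4]
        rw [mul_assoc, ← Real.exp_add, add_neg_cancel, Real.exp_zero, mul_one]
    _ ≤ H * Real.exp (-(Real.log H ^ (1 / 24 : ℝ))) := by
        apply mul_le_mul_of_nonneg_left _ hH0.le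
        apply Real.exp_le_exp.2
        linarith

lemma expo_num (ε x A : ℝ) (hε1 : ε ≤ 1 / 50) (hx : x ≤ 61 / 100) (hA : 0 ≤ A) :
    (ε ^ 2 * (14 / 1280 - 1 / 16 + (x + ε / 2) / 64)) * A ≤ -(ε ^ 2 / 50 * A) := by
  have e6 : 14 / 1280 - 1 / 16 + (x + ε / 2) / 64 ≤ -(1 / 50 : ℝ) := by linarith
  have e7 : ε ^ 2 * (14 / 1280 - 1 / 16 + (x + ε / 2) / 64) ≤ ε ^ 2 * (-(1 / 50)) :=
    mul_le_mul_of_nonneg_left e6 (by positivity)
  have e8 := mul_le_mul_of_nonneg_right e7 hA
  linarith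

theorem law (ε : ℝ) (hε : 0 < ε) (hε1 : ε ≤ 1 / 50) : ∃ m₀ H₀ : ℕ, ∀ H : ℕ, H₀ ≤ H → ∀ m : ℕ, m₀ ≤ m →
    (m : ℝ) ≤ Real.log H ^ (1 / 51 : ℝ) →
    (((Fintype.piFinset (fun _ : Fin m => range (H + 1))).filter (fun s => ¬ Law s H ε)).card : ℝ) ≤
      Real.exp (-(ε ^ 2 / 100 * (m / Real.log m))) * (H + 1 : ℝ) ^ m := by
  obtain ⟨H₁, h1⟩ := almost_good
  obtain ⟨c, hc⟩ : ∃ c : ℝ, c = ε ^ 2 / 128 := ⟨_, rfl⟩
  have hc0 : 0 < c := by rw [hc]; positivity
  have hlow := dn_tendsto.eventually (eventually_ge_nhds (show xx - ε < xx by linarith))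
  have hneg : Tendsto (fun m : ℕ => Real.exp (-(m : ℝ))) atTop (𝓝 0) :=
    Real.tendsto_exp_neg_atTop_nhds_zero.comp (tendsto_natCast_atTop_atTop (R := ℝ))
  have hev := (((((dn_zz c ε hc0 hε (by linarith)).and hlow).and (pnt_nat ε hε)).and
    (hneg.eventually (eventually_le_nhds (show (0 : ℝ) < ε / 8 by positivity)))).and
    ((div_log_tendsto.const_mul_atTop (show 0 < ε ^ 2 / 100 by positivity)).eventually_ge_atTop 1)).and
    ((log_nat_tendsto.eventually_ge_atTop 1).and (eventually_ge_atTop 3))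
  obtain ⟨m₀, h2⟩ := eventually_atTop.1 hev
  refine ⟨m₀, max H₁ 3, fun H hH m hm hmH => ?_⟩
  obtain ⟨⟨⟨⟨⟨b1, b2⟩, b3⟩, b4⟩, b5⟩, b6, b7⟩ := h2 m hm
  have hH1 : H₁ ≤ H := (le_max_left _ _).trans hH
  have hH3 : 3 ≤ H := (le_max_right _ _).trans hH
  have hH0 : (0 : ℝ) < H := by exact_mod_cast (by omega : 0 < H)
  have hm3 : (3 : ℝ) ≤ m := by exact_mod_cast b7
  have hm0 : (0 : ℝ) < m := by linarith
  have hLm : 0 < Real.log (m : ℝ) := by linarith
  have hlogH : 0 ≤ Real.log (H : ℝ) := Real.log_natCast_nonneg _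
  -- `m ^ 51 ≤ log H`
  have hpow : (m : ℝ) ^ 51 ≤ Real.log H := by
    calc (m : ℝ) ^ 51 ≤ (Real.log H ^ (1 / 51 : ℝ)) ^ 51 := pow_le_pow_left₀ hm0.le hmH 51
      _ = Real.log H := by
          rw [← Real.rpow_natCast, ← Real.rpow_mul hlogH]
          norm_num
  have hm2 : 2 * (m : ℝ) ≤ Real.log H := by
    refine le_trans ?_ hpow
    have e1 : (m : ℝ) ^ 51 = m ^ 50 * m := pow_succ _ _
    have e2 : (2 : ℝ) ≤ (m : ℝ) ^ 50 := by
      calc (2 : ℝ) ≤ m := by linarith
        _ = (m : ℝ) ^ 1 := (pow_one _).symm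
        _ ≤ (m : ℝ) ^ 50 := pow_le_pow_right₀ (by linarith) (by norm_num)
    rw [e1]
    exact mul_le_mul_of_nonneg_right e2 hm0.le
  have hL3 : (9 : ℝ) ≤ Real.log H := by
    refine le_trans ?_ hpow
    calc (9 : ℝ) = 3 ^ 2 := by norm_num
      _ ≤ (m : ℝ) ^ 2 := pow_le_pow_left₀ (by norm_num) hm3 2
      _ ≤ (m : ℝ) ^ 51 := pow_le_pow_right₀ (by linarith) (by norm_num)
  obtain ⟨A, hA⟩ : ∃ A : ℝ, A = (m : ℝ) / Real.log m := ⟨_, rfl⟩
  have hA0 : 0 < A := by rw [hA]; positivity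
  have hAm : A ≤ m := by
    rw [hA]
    exact div_le_self hm0.le b6
  obtain ⟨z, hz⟩ : ∃ z, z = zz c m := ⟨_, rfl⟩
  rw [← hz] at b1
  have hzA : (z : ℝ) ≤ c * A := by
    rw [hz, hA]
    exact Nat.floor_le (by positivity)
  have hcs : c ≤ 1 / 128 := by
    have : ε ^ 2 ≤ 1 := pow_le_one₀ hε.le (by linarith)
    rw [hc]
    linarith
  have hlog4 : Real.log 4 ≤ 14 / 10 := by
    rw [show (4 : ℝ) = 2 ^ 2 by norm_num, Real.log_pow]
    have := Real.log_two_lt_d9
    push_cast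
    linarith
  have hlog40 : 0 ≤ Real.log 4 := Real.log_nonneg (by norm_num)
  have hzm : z ≤ m := by
    have : (z : ℝ) ≤ m := by
      calc (z : ℝ) ≤ c * A := hzA
        _ ≤ 1 * m := by gcongr; linarith
        _ = m := one_mul _
    exact_mod_cast this
  -- the density
  have hd0 : 0 ≤ dn z := by unfold dn; positivity
  have hP0 : (0 : ℝ) < (primorial z : ℝ) := by exact_mod_cast primorial_pos z
  have hP : (primorial z : ℝ) ≤ Real.exp m := by
    have e1 : (primorial z : ℝ) ≤ 4 ^ z := by exact_mod_cast primorial_le_four_pow z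
    have e2 : (4 : ℝ) ^ z = Real.exp (z * Real.log 4) := by
      rw [mul_comm, Real.exp_mul, Real.exp_log (by norm_num), Real.rpow_natCast]
    rw [e2] at e1
    refine e1.trans (Real.exp_le_exp.2 ?_)
    calc (z : ℝ) * Real.log 4 ≤ (c * A) * (14 / 10) := by gcongr
      _ ≤ ((1 / 128) * m) * (14 / 10) := by gcongr
      _ ≤ m := by linarith
  have hHexp : Real.exp (2 * m) ≤ H := by
    calc Real.exp (2 * m) ≤ Real.exp (Real.log H) := Real.exp_le_exp.2 hm2
      _ = H := Real.exp_log hH0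
  have hPH : (primorial z : ℝ) ≤ ε / 8 * (H + 1) := by
    calc (primorial z : ℝ) ≤ Real.exp m := hP
      _ = Real.exp (-(m : ℝ)) * Real.exp (2 * m) := by rw [← Real.exp_add]; congr 1; ring
      _ ≤ ε / 8 * (H + 1) := by
          apply mul_le_mul b4 (hHexp.trans (by linarith)) (Real.exp_pos _).le (by positivity)
  obtain ⟨θ', hθ'⟩ : ∃ θ' : ℝ, θ' = dn z * (1 + ε / 8) := ⟨_, rfl⟩
  have hθ : ((primorial z).totient : ℝ) * (((H + 1) / primorial z + 1 : ℕ) : ℝ) ≤ θ' * (H + 1) := by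
    push_cast
    have e1 : (((H + 1) / primorial z : ℕ) : ℝ) ≤ ((H : ℝ) + 1) / primorial z := by
      have := Nat.cast_div_le (α := ℝ) (m := H + 1) (n := primorial z)
      push_cast at this
      exact this
    have e2 : ((primorial z).totient : ℝ) = dn z * primorial z := by
      unfold dn
      field_simp
    rw [e2, hθ']
    calc dn z * (primorial z : ℝ) * ((((H + 1) / primorial z : ℕ) : ℝ) + 1) ≤
        dn z * (primorial z : ℝ) * (((H : ℝ) + 1) / primorial z + 1) := by gcongr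
      _ = dn z * ((H : ℝ) + 1) + dn z * primorial z := by field_simp
      _ ≤ dn z * ((H : ℝ) + 1) + dn z * (ε / 8 * (H + 1)) := by gcongr
      _ = dn z * (1 + ε / 8) * (H + 1) := by ring
  have hmθ : (m : ℝ) * θ' ≤ (xx + ε / 2) * A := by
    have e1 : (m : ℝ) * θ' = (dn z * Real.log m) * (1 + ε / 8) * A := by
      rw [hθ', hA]
      field_simp
    rw [e1]
    apply mul_le_mul_of_nonneg_right _ hA0.le
    have e2 : (dn z * Real.log m) * (1 + ε / 8) ≤ (xx + ε / 4) * (1 + ε / 8) := by gcongr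
    have e3 := xx_le
    have e4 : (xx + ε / 4) * (ε / 8) ≤ 1 * (ε / 8) := by
      apply mul_le_mul_of_nonneg_right _ (by positivity)
      linarith
    linarith
  obtain ⟨u, hu⟩ : ∃ u : ℝ, u = ε / 8 := ⟨_, rfl⟩
  have hu0 : 0 ≤ u := by rw [hu]; positivity
  have hall := all_classes m H z u ((xx + ε) * A) θ' hu0 hθ
  have hexpo : (z : ℝ) * Real.log 4 + (m * ((Real.exp u - 1) * θ') - u * ((xx + ε) * A)) ≤ -(ε ^ 2 / 50 * A) := by
    have e1 : Real.exp u - 1 ≤ u + u ^ 2 := by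
      have := Real.abs_exp_sub_one_sub_id_le (x := u) (by rw [abs_of_nonneg hu0, hu]; linarith)
      have := le_abs_self (Real.exp u - 1 - u)
      linarith
    have e2 : (m : ℝ) * ((Real.exp u - 1) * θ') ≤ (u + u ^ 2) * ((xx + ε / 2) * A) := by
      calc (m : ℝ) * ((Real.exp u - 1) * θ') = (Real.exp u - 1) * (m * θ') := by ring
        _ ≤ (u + u ^ 2) * ((xx + ε / 2) * A) := by
            apply mul_le_mul e1 hmθ _ (by positivity)
            rw [hθ']
            positivity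
    have e3 : (z : ℝ) * Real.log 4 ≤ (c * A) * (14 / 10) := by gcongr
    have hx := xx_le
    have hx0 := xx_pos
    have e4 : (c * A) * (14 / 10) + ((u + u ^ 2) * ((xx + ε / 2) * A) - u * ((xx + ε) * A)) ≤ -(ε ^ 2 / 50 * A) := by
      have e5 : (c * A) * (14 / 10) + ((u + u ^ 2) * ((xx + ε / 2) * A) - u * ((xx + ε) * A)) =
          (ε ^ 2 * (14 / 1280 - 1 / 16 + (xx + ε / 2) / 64)) * A := by
        rw [hc, hu]
        ring
      rw [e5]
      exact expo_num ε xx A hε1 hx hA0.le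
    linarith
  -- the size of the windows
  have hmY := lt_Y m H hH0 hL3 hm2
  have hsub : (Fintype.piFinset (fun _ : Fin m => range (H + 1))).filter (fun s => ¬ Law s H ε) ⊆
      (Fintype.piFinset (fun _ : Fin m => range (H + 1))).filter
        (fun s => ¬ Good s H (H * Real.exp (-(Real.log H ^ (1 / 24 : ℝ))))) ∪
      (Fintype.piFinset (fun _ : Fin m => range (H + 1))).filter (fun s => ∃ a : ℕ, (xx + ε) * A ≤ ((free z s a).card : ℝ)) := by
    intro s hs
    rw [mem_filter] at hs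
    rw [mem_union, mem_filter, mem_filter]
    by_contra hcon
    push Not at hcon
    obtain ⟨g1, g2⟩ := hcon
    have g1 := g1 hs.1
    have g2 := g2 hs.1
    apply hs.2
    have hmax := good_max s H _ hmY g1
    obtain ⟨a, ha⟩ := hmax.1
    obtain ⟨a', ha'⟩ := exists_ge s m
    have hge : (free m s a').card ≤ rho s H := hmax.2 ⟨a', rfl⟩
    have hup : (rho s H : ℝ) ≤ (xx + ε) * A := by
      rw [ha]
      have e1 : (free m s a).card ≤ (free z s a).card := card_le_card (free_anti hzm s a)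
      have e2 : ((free m s a).card : ℝ) ≤ (free z s a).card := by exact_mod_cast e1
      exact e2.trans (g2 a).le
    refine ⟨?_, ?_, ?_⟩
    · rw [← hA]
      have e1 : (xx - ε) * A ≤ (m : ℝ) * dn m := by
        have e2 : (m : ℝ) * dn m = (dn m * Real.log m) * A := by
          rw [hA]
          field_simp
        rw [e2]
        exact mul_le_mul_of_nonneg_right b2 hA0.le
      refine e1.trans (ha'.trans ?_)
      exact_mod_cast hge
    · rw [← hA]
      exact hup
    · rw [← hA] at b3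
      have e1 : (m : ℝ) / (3 * Real.log m) = A / 3 := by
        rw [hA]
        field_simp
      rw [e1]
      have hx := xx_le
      have e2 : (xx + ε) * A ≤ (63 / 100) * A := mul_le_mul_of_nonneg_right (by linarith) hA0.le
      have e3 : (98 / 100) * A ≤ (1 - ε) * A := mul_le_mul_of_nonneg_right (by linarith) hA0.le
      linarith
  have hfin : Real.exp (-(Real.log H ^ (1 / 51 : ℝ))) * (H + 1 : ℝ) ^ m +
      (H + 1 : ℝ) ^ m * Real.exp (z * Real.log 4 + (m * ((Real.exp u - 1) * θ') - u * ((xx + ε) * A))) ≤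
      Real.exp (-(ε ^ 2 / 100 * (m / Real.log m))) * (H + 1 : ℝ) ^ m := by
    rw [← hA]
    rw [← hA] at b5
    have e1 : Real.exp (-(Real.log H ^ (1 / 51 : ℝ))) ≤ Real.exp (-(ε ^ 2 / 50 * A)) := by
      apply Real.exp_le_exp.2
      have : ε ^ 2 / 50 * A ≤ 1 * m := by
        gcongr
        have : ε ^ 2 ≤ 1 := pow_le_one₀ hε.le (by linarith)
        linarith
      linarith
    have e2 : Real.exp (z * Real.log 4 + (m * ((Real.exp u - 1) * θ') - u * ((xx + ε) * A))) ≤ Real.exp (-(ε ^ 2 / 50 * A)) :=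
      Real.exp_le_exp.2 hexpo
    have e3 : 2 * Real.exp (-(ε ^ 2 / 50 * A)) ≤ Real.exp (-(ε ^ 2 / 100 * A)) := by
      have e4 : Real.exp (-(ε ^ 2 / 100 * A)) = Real.exp (ε ^ 2 / 100 * A) * Real.exp (-(ε ^ 2 / 50 * A)) := by
        rw [← Real.exp_add]
        congr 1
        ring
      rw [e4]
      apply mul_le_mul_of_nonneg_right _ (Real.exp_pos _).le
      have := Real.add_one_le_exp (ε ^ 2 / 100 * A)
      linarith
    have hH1 : (0 : ℝ) ≤ ((H : ℝ) + 1) ^ m := by positivity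
    calc Real.exp (-(Real.log H ^ (1 / 51 : ℝ))) * (H + 1 : ℝ) ^ m +
        (H + 1 : ℝ) ^ m * Real.exp (z * Real.log 4 + (m * ((Real.exp u - 1) * θ') - u * ((xx + ε) * A))) ≤
        Real.exp (-(ε ^ 2 / 50 * A)) * (H + 1 : ℝ) ^ m + (H + 1 : ℝ) ^ m * Real.exp (-(ε ^ 2 / 50 * A)) := by gcongr
      _ = 2 * Real.exp (-(ε ^ 2 / 50 * A)) * (H + 1 : ℝ) ^ m := by ring
      _ ≤ _ := mul_le_mul_of_nonneg_right e3 hH1
  refine le_trans ?_ hfin
  refine le_trans ?_ (add_le_add (h1 H hH1 m hmH) hall)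
  exact_mod_cast (card_le_card hsub).trans (card_union_le _ _)

end Pool.Agent.Run7.h794.RW
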